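import Pool.Agent.H608R3.Lens.Final

/-!
Guth's question on large convex subsets of closed manifolds of positive Ricci curvature has a
negative answer in dimension three: in the lens spaces `S^3 / G`, with `G` the cyclic group of
order `p` acting by complex scalars (constant sectional curvature `1`, Ricci curvature `2 g`),
every geodesically convex subset has small volume when `p` is large.
-/

open MeasureTheory

namespace Pool.Agent.Results.MP_6c73b3_gt.LensSpaces

open Pool.Agent.H608R3.Lens

theorem result : ∀ c : ENNReal, 0 < c →
    ∃ (M : Type) (_ : MetricSpace M) (_ : MeasurableSpace M) (_ : BorelSpace M)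
      (vol : Measure M), CompactSpace M ∧ ConnectedSpace M ∧ IsSphericalSpaceForm 3 M vol ∧
      0 < vol Set.univ ∧ vol Set.univ < ⊤ ∧
      ∀ Γ : Set M, GeodesicallyConvex Γ → vol Γ < c * vol Set.univ :=
  fun c hc => main c hc

end Pool.Agent.Results.MP_6c73b3_gt.LensSpaces
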